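import Pool.Agent.L0h16.Dub.Defs

/-!
# Algebra of graded operators on the cohomology
-/

set_option autoImplicit false

open CategoryTheory Filter Topology

namespace Pool.Agent.L0h16.Dub

section graded

variable {H : Type} [NormedCommRing H] [NormedAlgebra ℂ H] {N : ℕ} (X : Coh H N)

lemma gradedOp_basis (f : ℕ → ℂ) (a : Fin N) :
    gradedOp X.φ X.deg f (X.φ a) = f (X.deg a) • X.φ a := by
  rw [gradedOp, Module.Basis.constr_basis]

/-- Two linear maps which agree on the basis. -/
lemma gradedOp_comp (f g : ℕ → ℂ) (x : H) :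
    gradedOp X.φ X.deg f (gradedOp X.φ X.deg g x) = gradedOp X.φ X.deg (fun p => f p * g p) x := by
  have : (gradedOp X.φ X.deg f) ∘ₗ (gradedOp X.φ X.deg g) =
      gradedOp X.φ X.deg (fun p => f p * g p) := by
    refine X.φ.ext fun a => ?_
    rw [LinearMap.comp_apply, gradedOp_basis, map_smul, gradedOp_basis, gradedOp_basis, smul_smul,
      mul_comm]
  exact LinearMap.congr_fun this x

lemma gradedOp_smul (f : ℕ → ℂ) (c : ℂ) (x : H) :
    gradedOp X.φ X.deg (fun p => c * f p) x = c • gradedOp X.φ X.deg f x := by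
  have : gradedOp X.φ X.deg (fun p => c * f p) = c • gradedOp X.φ X.deg f := by
    refine X.φ.ext fun a => ?_
    rw [LinearMap.smul_apply, gradedOp_basis, gradedOp_basis, smul_smul]
  exact LinearMap.congr_fun this x

lemma gradedOp_one (x : H) : gradedOp X.φ X.deg (fun _ => 1) x = x := by
  have : gradedOp X.φ X.deg (fun _ => 1) = LinearMap.id := by
    refine X.φ.ext fun a => ?_
    rw [gradedOp_basis, one_smul, LinearMap.id_apply]
  exact LinearMap.congr_fun this x

/-- The value on a vector, all components of which have the degree `p`. -/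
lemma gradedOp_of_deg (f : ℕ → ℂ) {x : H} {p : ℕ} (hx : ∀ a, X.φ.repr x a ≠ 0 → X.deg a = p) :
    gradedOp X.φ X.deg f x = f p • x := by
  conv_lhs => rw [← X.φ.sum_repr x, map_sum]
  conv_rhs => rw [← X.φ.sum_repr x, Finset.smul_sum]
  refine Finset.sum_congr rfl fun a _ => ?_
  by_cases h : X.φ.repr x a = 0
  · rw [h, zero_smul, map_zero, smul_zero]
  · rw [map_smul, gradedOp_basis, hx a h, smul_comm]

lemma gradedOp_basis_mul (f : ℕ → ℂ) (a b : Fin N) :
    gradedOp X.φ X.deg f (X.φ a * X.φ b) = f (X.deg a + X.deg b) • (X.φ a * X.φ b) :=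
  gradedOp_of_deg X f fun c hc => X.mul_hom a b c hc

/-- A multiplicative function gives a homomorphism of algebras. -/
lemma gradedOp_mul {f : ℕ → ℂ} (hf : ∀ p q, f (p + q) = f p * f q) (x y : H) :
    gradedOp X.φ X.deg f (x * y) = gradedOp X.φ X.deg f x * gradedOp X.φ X.deg f y := by
  have key : ∀ a b, gradedOp X.φ X.deg f (X.φ a * X.φ b) =
      gradedOp X.φ X.deg f (X.φ a) * gradedOp X.φ X.deg f (X.φ b) := by
    intro a b
    rw [gradedOp_basis_mul, gradedOp_basis, gradedOp_basis, smul_mul_smul_comm, hf]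
  have h1 : ∀ a (y : H), gradedOp X.φ X.deg f (X.φ a * y) =
      gradedOp X.φ X.deg f (X.φ a) * gradedOp X.φ X.deg f y := by
    intro a y
    conv_lhs => rw [← X.φ.sum_repr y, Finset.mul_sum, map_sum]
    conv_rhs => rw [← X.φ.sum_repr y, map_sum, Finset.mul_sum]
    refine Finset.sum_congr rfl fun b _ => ?_
    rw [mul_smul_comm, map_smul, map_smul, mul_smul_comm, key]
  conv_lhs => rw [← X.φ.sum_repr x, Finset.sum_mul, map_sum]
  conv_rhs => rw [← X.φ.sum_repr x, map_sum, Finset.sum_mul]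
  refine Finset.sum_congr rfl fun b _ => ?_
  rw [smul_mul_assoc, map_smul, map_smul, smul_mul_assoc, h1]

/-- The integral vanishes on products of basis elements of complementary degrees only. -/
lemma int_basis_mul {a b : Fin N} (h : X.deg a + X.deg b ≠ X.dim) :
    X.int (X.φ a * X.φ b) = 0 := by
  conv_lhs => rw [← X.φ.sum_repr (X.φ a * X.φ b), map_sum]
  refine Finset.sum_eq_zero fun c _ => ?_
  by_cases h1 : X.φ.repr (X.φ a * X.φ b) c = 0
  · rw [h1, zero_smul, map_zero]
  · have h2 := X.mul_hom a b c h1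
    by_cases h3 : X.int (X.φ c) = 0
    · rw [map_smul, h3, smul_zero]
    · exact absurd (h2.symm.trans (X.int_hom c h3)) h

/-- The adjoint of a graded operator. -/
lemma int_gradedOp {f g : ℕ → ℂ} (h : ∀ p q, p + q = X.dim → f p = g q) (x y : H) :
    X.int (gradedOp X.φ X.deg f x * y) = X.int (x * gradedOp X.φ X.deg g y) := by
  have key : ∀ a b, X.int (gradedOp X.φ X.deg f (X.φ a) * X.φ b) =
      X.int (X.φ a * gradedOp X.φ X.deg g (X.φ b)) := by
    intro a b
    rw [gradedOp_basis, gradedOp_basis, smul_mul_assoc, mul_smul_comm, map_smul, map_smul]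
    by_cases hd : X.deg a + X.deg b = X.dim
    · rw [h _ _ hd]
    · rw [int_basis_mul X hd, smul_zero, smul_zero]
  have h1 : ∀ a (y : H), X.int (gradedOp X.φ X.deg f (X.φ a) * y) =
      X.int (X.φ a * gradedOp X.φ X.deg g y) := by
    intro a y
    conv_lhs => rw [← X.φ.sum_repr y, Finset.mul_sum, map_sum]
    conv_rhs => rw [← X.φ.sum_repr y, map_sum, Finset.mul_sum, map_sum]
    refine Finset.sum_congr rfl fun b _ => ?_
    rw [mul_smul_comm, map_smul, map_smul, mul_smul_comm, map_smul, key]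
  conv_lhs => rw [← X.φ.sum_repr x, map_sum, Finset.sum_mul, map_sum]
  conv_rhs => rw [← X.φ.sum_repr x, Finset.sum_mul, map_sum]
  refine Finset.sum_congr rfl fun b _ => ?_
  rw [map_smul, smul_mul_assoc, map_smul, smul_mul_assoc, map_smul, h1]

lemma int_θ (x y : H) : X.int (X.θ x * y) = - X.int (x * X.θ y) := by
  have h1 := int_gradedOp X (f := fun p => (X.dim : ℂ) / 2 - p)
    (g := fun p => (-1) * ((X.dim : ℂ) / 2 - p)) (fun p q hpq => by
      have : (X.dim : ℂ) = p + q := by rw [← hpq]; push_cast; ring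
      rw [this]; ring) x y
  rw [gradedOp_smul, neg_one_smul, mul_neg, map_neg] at h1
  exact h1

/-- `∫ a^∨ = (-1) ^ D ∫ a`. -/
lemma int_dual (x : H) : X.int (X.dual x) = (-1) ^ X.dim * X.int x := by
  have h : X.int ∘ₗ X.dual = ((-1 : ℂ) ^ X.dim) • X.int := by
    refine X.φ.ext fun a => ?_
    rw [LinearMap.comp_apply, Coh.dual, gradedOp_basis, map_smul, LinearMap.smul_apply]
    by_cases h : X.int (X.φ a) = 0
    · rw [h, smul_zero, smul_zero]
    · rw [X.int_hom a h]
  exact LinearMap.congr_fun h x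

lemma dual_dual (x : H) : X.dual (X.dual x) = x := by
  rw [Coh.dual, gradedOp_comp]
  have : (fun p : ℕ => ((-1 : ℂ)) ^ p * (-1) ^ p) = fun _ => 1 := by
    funext p
    rw [← mul_pow]; simp
  rw [this, gradedOp_one]

lemma dual_mul (x y : H) : X.dual (x * y) = X.dual x * X.dual y :=
  gradedOp_mul X (fun p q => pow_add _ p q) x y

lemma scale_mul (x y : H) : X.scale (x * y) = X.scale x * X.scale y :=
  gradedOp_mul X (fun p q => pow_add _ p q) x y

lemma two_pi_I_ne : (2 * Real.pi * Complex.I : ℂ) ≠ 0 := Complex.two_pi_I_ne_zero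

/-- The inverse of the normalisation. -/
noncomputable def unscale : H →ₗ[ℂ] H :=
  gradedOp X.φ X.deg fun p => ((2 * Real.pi * Complex.I) ^ p)⁻¹

lemma unscale_scale (x : H) : unscale X (X.scale x) = x := by
  rw [unscale, Coh.scale, gradedOp_comp]
  have : (fun p : ℕ => ((2 * Real.pi * Complex.I : ℂ) ^ p)⁻¹ * (2 * Real.pi * Complex.I) ^ p) =
      fun _ => 1 := by
    funext p
    exact inv_mul_cancel₀ (pow_ne_zero _ two_pi_I_ne)
  rw [this, gradedOp_one]

lemma unscale_mul (x y : H) : unscale X (x * y) = unscale X x * unscale X y :=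
  gradedOp_mul X (fun p q => by rw [pow_add, mul_inv]) x y

lemma unscale_c₁ : unscale X X.c₁ = (2 * Real.pi * Complex.I)⁻¹ • X.c₁ := by
  rw [unscale, gradedOp_of_deg X _ X.c₁_hom, pow_one]

lemma dual_c₁ : X.dual X.c₁ = -X.c₁ := by
  rw [Coh.dual, gradedOp_of_deg X _ X.c₁_hom, pow_one, neg_one_smul]

/-! ### Nilpotency of the first Chern class -/

lemma deg_le (a : Fin N) : X.deg a ≤ X.dim := by
  by_contra h
  have : X.φ a = 0 := by
    refine X.nondeg _ fun y => ?_
    conv_lhs => rw [← X.φ.sum_repr y, Finset.mul_sum, map_sum]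
    refine Finset.sum_eq_zero fun b _ => ?_
    rw [mul_smul_comm, map_smul, int_basis_mul X (by omega), smul_zero]
  exact X.φ.ne_zero a this

/-- The components of a product of homogeneous elements. -/
lemma mul_deg {x y : H} {p q : ℕ} (hx : ∀ a, X.φ.repr x a ≠ 0 → X.deg a = p)
    (hy : ∀ a, X.φ.repr y a ≠ 0 → X.deg a = q) :
    ∀ a, X.φ.repr (x * y) a ≠ 0 → X.deg a = p + q := by
  intro c hc
  by_contra hne
  apply hc
  rw [← X.φ.sum_repr x, Finset.sum_mul, map_sum, Finsupp.finsetSum_apply]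
  refine Finset.sum_eq_zero fun a _ => ?_
  by_cases ha : X.φ.repr x a = 0
  · rw [ha, zero_smul, zero_mul, map_zero]; rfl
  rw [← X.φ.sum_repr y, Finset.mul_sum, map_sum, Finsupp.finsetSum_apply]
  refine Finset.sum_eq_zero fun b _ => ?_
  by_cases hb : X.φ.repr y b = 0
  · rw [hb, zero_smul, mul_zero, map_zero]; rfl
  rw [smul_mul_smul_comm, map_smul, Finsupp.smul_apply]
  by_cases hab : X.φ.repr (X.φ a * X.φ b) c = 0
  · rw [hab, smul_zero]
  · exact absurd (by rw [X.mul_hom a b c hab, hx a ha, hy b hb]) hne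

lemma c₁_pow_deg (m : ℕ) : ∀ a, X.φ.repr (X.c₁ ^ m) a ≠ 0 → X.deg a = m := by
  induction m with
  | zero => intro a ha; rw [pow_zero] at ha; exact X.one_hom a ha
  | succ m ih =>
    rw [pow_succ]
    exact mul_deg X ih X.c₁_hom

lemma c₁_pow_eq_zero : X.c₁ ^ (X.dim + 1) = 0 := by
  rw [← X.φ.sum_repr (X.c₁ ^ (X.dim + 1))]
  refine Finset.sum_eq_zero fun a _ => ?_
  by_cases h : X.φ.repr (X.c₁ ^ (X.dim + 1)) a = 0
  · rw [h, zero_smul]
  · have := c₁_pow_deg X _ a h
    have := deg_le X a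
    omega

lemma exp_smul_c₁ (s : ℂ) : NormedSpace.exp (s • X.c₁) =
    ∑ m ∈ Finset.range (X.dim + 1), (s ^ m * (m.factorial : ℂ)⁻¹) • X.c₁ ^ m := by
  rw [NormedSpace.exp_eq_tsum ℂ]
  show ∑' m : ℕ, ((m.factorial : ℂ)⁻¹) • (s • X.c₁) ^ m = _
  rw [tsum_eq_sum (s := Finset.range (X.dim + 1))]
  · refine Finset.sum_congr rfl fun m _ => ?_
    rw [smul_pow, smul_smul, mul_comm]
  · intro m hm
    rw [Finset.mem_range, not_lt] at hm
    rw [smul_pow, pow_eq_zero_of_le hm (c₁_pow_eq_zero X), smul_zero, smul_zero]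

include X in
/-- A polynomial with values in `H` which vanishes at all natural numbers has the coefficients
zero. -/
lemma coeff_zero {n : ℕ} {v : ℕ → H}
    (h : ∀ k : ℕ, ∑ m ∈ Finset.range n, ((k : ℂ) ^ m) • v m = 0) : ∀ m < n, v m = 0 := by
  intro m hm
  refine X.φ.repr.injective ?_
  rw [map_zero]
  ext c
  let p : Polynomial ℂ := ∑ m ∈ Finset.range n, Polynomial.C (X.φ.repr (v m) c) * Polynomial.X ^ m
  have hp : p = 0 := by
    refine Polynomial.eq_zero_of_infinite_isRoot p ?_
    refine Set.infinite_of_injective_forall_mem (f := fun k : ℕ => (k : ℂ)) Nat.cast_injective ?_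
    intro k
    rw [Set.mem_ofPred_eq, Polynomial.IsRoot, Polynomial.eval_finsetSum]
    have h1 := congrArg (fun x => X.φ.repr x c) (h k)
    simp only [map_sum, map_smul, map_zero, Finsupp.finsetSum_apply, Finsupp.smul_apply,
      Finsupp.coe_zero, Pi.zero_apply, smul_eq_mul] at h1
    rw [← h1]
    refine Finset.sum_congr rfl fun m _ => ?_
    rw [Polynomial.eval_mul, Polynomial.eval_C, Polynomial.eval_pow, Polynomial.eval_X, mul_comm]
  have h2 := congrArg (fun q => Polynomial.coeff q m) hp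
  simp only [p, Polynomial.finsetSum_coeff, Polynomial.coeff_C_mul, Polynomial.coeff_X_pow,
    Polynomial.coeff_zero, mul_ite, mul_one, mul_zero] at h2
  rw [Finset.sum_ite_eq, if_pos (Finset.mem_range.2 hm)] at h2
  exact h2

/-- If a linear map intertwines `exp (c₁)` and `exp (s c₁)` then it intertwines `c₁` and `s c₁`. -/
lemma intertwine {C : H →ₗ[ℂ] H} {s : ℂ}
    (h : ∀ a, C (NormedSpace.exp ((-1 : ℂ) • X.c₁) * a) = NormedSpace.exp ((-s) • X.c₁) * C a) (a : H) :
    C (X.c₁ * a) = s • (X.c₁ * C a) := by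
  have : FiniteDimensional ℂ H := X.φ.finiteDimensional_of_finite
  have : CompleteSpace H := FiniteDimensional.complete ℂ H
  have hpow : ∀ (k : ℕ) (r : ℂ), NormedSpace.exp ((-(k * r)) • X.c₁) =
      NormedSpace.exp ((-r) • X.c₁) ^ k := by
    intro k r
    let _ : NormedAlgebra ℚ H := NormedAlgebra.restrictScalars ℚ ℂ H
    rw [← NormedSpace.exp_nsmul]
    congr 1
    rw [← Nat.cast_smul_eq_nsmul ℂ, smul_smul]
    congr 1
    ring
  have h1 : ∀ (k : ℕ) (b : H), C (NormedSpace.exp ((-1 : ℂ) • X.c₁) ^ k * b) =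
      NormedSpace.exp ((-s) • X.c₁) ^ k * C b := by
    intro k
    induction k with
    | zero => intro b; rw [pow_zero, one_mul, pow_zero, one_mul]
    | succ k ih => intro b; rw [pow_succ, mul_assoc, ih, h, pow_succ, mul_assoc]
  have h2 := coeff_zero X (n := X.dim + 1) (v := fun m => ((-1 : ℂ) ^ m * (m.factorial : ℂ)⁻¹) •
    (C (X.c₁ ^ m * a) - s ^ m • (X.c₁ ^ m * C a))) (fun k => by
      have h3 := h1 k a
      have e1 := hpow k 1
      rw [mul_one] at e1
      rw [← e1, ← hpow k s, exp_smul_c₁, exp_smul_c₁, Finset.sum_mul, Finset.sum_mul, map_sum,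
        ← sub_eq_zero, ← Finset.sum_sub_distrib] at h3
      rw [← h3]
      refine Finset.sum_congr rfl fun m _ => ?_
      rw [smul_mul_assoc, smul_mul_assoc, map_smul, smul_sub, smul_sub, smul_smul, smul_smul,
        smul_smul]
      congr 2
      · rw [neg_pow]; ring
      · rw [neg_pow ((k : ℂ) * s), mul_pow]; ring) 1 (by have := X.dim_pos; omega)
  rw [smul_eq_zero] at h2
  rcases h2 with h2 | h2
  · norm_num at h2
  · rw [pow_one, pow_one, sub_eq_zero] at h2
    exact h2

end graded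

end Pool.Agent.L0h16.Dub
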