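import Pool.Agent.L0h16.Dub.Alg

/-!
# The pairing of the solutions in opposite half planes and the monodromy
-/

set_option autoImplicit false

open CategoryTheory Filter Topology

namespace Pool.Agent.L0h16.Dub

section

variable {H : Type} [NormedCommRing H] [NormedAlgebra ℂ H] {N : ℕ} {X : Coh H N} {Q : Quantum X}

variable {t : H} {f : Fin N → H} {u : Fin N → ℂ} {ϕ : ℝ}

lemma exp_neg_sub_pi (w : ℂ) :
    Complex.exp (-(w - Real.pi * Complex.I)) = -Complex.exp (-w) := by
  rw [neg_sub, sub_eq_add_neg, Complex.exp_add, Complex.exp_pi_mul_I, neg_one_mul]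

lemma exp_sub_pi (w : ℂ) :
    Complex.exp (w - Real.pi * Complex.I) = -Complex.exp w := by
  rw [sub_eq_add_neg, Complex.exp_add, Complex.exp_neg, Complex.exp_pi_mul_I]
  ring

lemma exp_add_pi (w : ℂ) :
    Complex.exp (w + Real.pi * Complex.I) = -Complex.exp w := by
  rw [Complex.exp_add, Complex.exp_pi_mul_I]
  ring

/-- The pairing of a solution at `-z` with a solution at `z` is constant. -/
lemma pairing_const [FiniteDimensional ℂ H] (ht : t ∈ Q.M) {Y Y' : ℂ → H} (hY : Q.IsSol t Y)
    (hY' : Q.IsSol t Y') (w w' : ℂ) :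
    X.int (Y (w - Real.pi * Complex.I) * Y' w) = X.int (Y (w' - Real.pi * Complex.I) * Y' w') := by
  have hd : ∀ w, HasDerivAt (fun w => X.int (Y (w - Real.pi * Complex.I) * Y' w)) 0 w := by
    intro w
    have h1 : HasDerivAt (fun w => Y (w - Real.pi * Complex.I))
        (X.θ (Y (w - Real.pi * Complex.I)) + Complex.exp (-w) •
          Q.mul t (X.euler t) (Y (w - Real.pi * Complex.I))) w := by
      have h := hY (w - Real.pi * Complex.I)
      rw [exp_neg_sub_pi, neg_smul, sub_neg_eq_add] at h
      exact h.comp_sub_const w _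
    have h2 := (h1.mul (hY' w))
    have h3 : HasDerivAt (fun w => (LinearMap.toContinuousLinearMap X.int)
        (Y (w - Real.pi * Complex.I) * Y' w)) _ w :=
      ((LinearMap.toContinuousLinearMap X.int).hasFDerivAt).comp_hasDerivAt w h2
    refine h3.congr_deriv ?_
    rw [LinearMap.coe_toContinuousLinearMap', map_add, add_mul, mul_sub, map_add, map_sub, int_θ,
      smul_mul_assoc, mul_smul_comm, map_smul, map_smul]
    have h4 : X.int (Q.mul t (X.euler t) (Y (w - Real.pi * Complex.I)) * Y' w) =
        X.int (Y (w - Real.pi * Complex.I) * Q.mul t (X.euler t) (Y' w)) := by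
      rw [Q.comm t ht, Q.frob t ht]
    rw [h4]
    ring
  exact is_const_of_deriv_eq_zero (fun w => (hd w).differentiableAt)
    (fun w => (hd w).deriv) w w'

/-- The frame is orthonormal. -/
lemma frame_orth (ht : t ∈ Q.M) (h : Q.Frame t f u) (i j : Fin N) :
    X.int (f i * f j) = if i = j then 1 else 0 := by
  split_ifs with hij
  · rw [hij]; exact h.norm j
  · obtain ⟨e, r, h1, h2, h3, h4, h5⟩ := h.idem
    have h6 : X.int (e i * e j) = 0 := by
      rw [← h2 i, Q.frob t ht, h3 i j hij, mul_zero, map_zero]
    rw [h1, h1, smul_mul_smul_comm, map_smul, h6, smul_zero]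

/-- There is a ray in the half plane on which `Re (v / z) ≥ 0`. -/
lemma exists_ray {v : ℂ} {ϕ : ℝ} (h : (v * Complex.exp (-(ϕ * Complex.I))).re ≠ 0) :
    ∃ β : ℝ, ϕ < β ∧ β < ϕ + Real.pi ∧ 0 ≤ (v * Complex.exp (-(β * Complex.I))).re := by
  set a := v * Complex.exp (-(ϕ * Complex.I)) with ha
  have key : ∀ ε : ℝ, (v * Complex.exp (-(((ϕ + ε : ℝ) : ℂ) * Complex.I))).re =
      a.re * Real.cos ε + a.im * Real.sin ε := by
    intro ε
    have h1 : v * Complex.exp (-(((ϕ + ε : ℝ) : ℂ) * Complex.I)) =
        a * Complex.exp (((-ε : ℝ) : ℂ) * Complex.I) := by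
      rw [ha, mul_assoc, ← Complex.exp_add]
      congr 2
      push_cast
      ring
    rw [h1, Complex.exp_mul_I, ← Complex.ofReal_cos, ← Complex.ofReal_sin, Real.cos_neg,
      Real.sin_neg]
    simp only [Complex.mul_re, Complex.add_re, Complex.ofReal_re, Complex.I_re, mul_zero,
      Complex.ofReal_im, Complex.I_im, mul_one, sub_self, add_zero, Complex.add_im,
      Complex.mul_im, zero_add]
    ring
  have hpi := Real.pi_pos
  by_cases h0 : 0 ≤ a.im
  · refine ⟨ϕ + Real.pi / 2, by linarith, by linarith, ?_⟩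
    rw [key, Real.cos_pi_div_two, Real.sin_pi_div_two]
    linarith
  · push Not at h0
    rcases lt_or_gt_of_ne h with h1 | h1
    · -- `a.re < 0`
      set ε := Real.arctan (a.re / a.im) with hε
      have hq : 0 < a.re / a.im := div_pos_of_neg_of_neg h1 h0
      have h2 : 0 < ε := Real.arctan_pos.2 hq
      have h3 : ε < Real.pi / 2 := Real.arctan_lt_pi_div_two _
      refine ⟨ϕ + (Real.pi - ε), by linarith, by linarith, ?_⟩
      rw [key, Real.cos_pi_sub, Real.sin_pi_sub]
      have h4 : Real.sin ε = a.re / a.im * Real.cos ε := by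
        rw [hε, ← Real.tan_mul_cos (ne_of_gt (Real.cos_arctan_pos _)), Real.tan_arctan]
      rw [h4]
      have h5 : a.im * (a.re / a.im * Real.cos ε) = a.re * Real.cos ε := by
        have : a.im ≠ 0 := ne_of_lt h0
        field_simp
      rw [h5]; linarith
    · set ε := Real.arctan (a.re / (-a.im)) with hε
      have hq : 0 < a.re / (-a.im) := div_pos h1 (by linarith)
      have h2 : 0 < ε := Real.arctan_pos.2 hq
      have h3 : ε < Real.pi / 2 := Real.arctan_lt_pi_div_two _
      refine ⟨ϕ + ε, by linarith, by linarith, ?_⟩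
      rw [key]
      have h4 : Real.sin ε = a.re / (-a.im) * Real.cos ε := by
        rw [hε, ← Real.tan_mul_cos (ne_of_gt (Real.cos_arctan_pos _)), Real.tan_arctan]
      have h5 : a.im * (a.re / (-a.im) * Real.cos ε) = -(a.re * Real.cos ε) := by
        have : a.im ≠ 0 := ne_of_lt h0
        field_simp
      rw [h4, h5]; linarith

/-- The pairing of the solutions with the given asymptotic behaviour in opposite half planes. -/
lemma pairing_eq [FiniteDimensional ℂ H] (ht : t ∈ Q.M) (hf : Q.Frame t f u)
    (hϕ : Quantum.Admissible u ϕ) {Yr Yl : Fin N → ℂ → H} (hr : Q.IsAsymptotic t f u (ϕ - Real.pi) Yr)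
    (hl : Q.IsAsymptotic t f u ϕ Yl) (i j : Fin N) (w : ℂ) :
    X.int (Yr i (w - Real.pi * Complex.I) * Yl j w) = if i = j then 1 else 0 := by
  -- the limit along a ray
  set K := X.int (Yr i (w - Real.pi * Complex.I) * Yl j w) with hK
  have hlim : ∀ β : ℝ, ϕ < β → β < ϕ + Real.pi →
      Tendsto (fun x : ℝ => Complex.exp ((u i - u j) * Complex.exp (-(x + β * Complex.I))) * K) atBot
        (𝓝 (if i = j then 1 else 0)) := by
    intro β h1 h2
    have h3 := hr.lim i (β - Real.pi) (by linarith) (by linarith)
    have h4 := hl.lim j β h1 h2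
    have h5 := ((LinearMap.toContinuousLinearMap X.int).continuous.tendsto _).comp (h3.mul h4)
    rw [LinearMap.coe_toContinuousLinearMap', frame_orth ht hf] at h5
    refine h5.congr fun x => ?_
    rw [Function.comp_apply, smul_mul_smul_comm, map_smul, smul_eq_mul]
    have e0 : ((x : ℂ) + ((β - Real.pi : ℝ) : ℂ) * Complex.I) =
        (x + β * Complex.I) - Real.pi * Complex.I := by push_cast; ring
    rw [e0, exp_neg_sub_pi, pairing_const ht (hr.sol i) (hl.sol j) (x + β * Complex.I) w, ← hK,
      ← Complex.exp_add]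
    congr 2
    ring
  split_ifs with hij
  · subst hij
    have h1 := hlim (ϕ + Real.pi / 2) (by linarith [Real.pi_pos]) (by linarith [Real.pi_pos])
    rw [if_pos rfl] at h1
    simp only [sub_self, zero_mul, Complex.exp_zero, one_mul] at h1
    exact tendsto_nhds_unique tendsto_const_nhds h1
  · have hne : ((u i - u j) * Complex.exp (-(ϕ * Complex.I))).re ≠ 0 := by
      intro h0
      refine hϕ i j hij (-((u i - u j) * Complex.exp (-(ϕ * Complex.I))).im) ?_
      have h1 : (u i - u j) * Complex.exp (-(ϕ * Complex.I)) =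
          (((u i - u j) * Complex.exp (-(ϕ * Complex.I))).im : ℂ) * Complex.I := by
        conv_lhs => rw [← Complex.re_add_im ((u i - u j) * Complex.exp (-(ϕ * Complex.I))), h0]
        simp
      have h2 : (u i - u j) = ((u i - u j) * Complex.exp (-(ϕ * Complex.I))) *
          Complex.exp (Complex.I * ϕ) := by
        rw [mul_assoc, ← Complex.exp_add]
        have : -((ϕ : ℂ) * Complex.I) + Complex.I * ϕ = 0 := by ring
        rw [this, Complex.exp_zero, mul_one]
      conv_lhs => rw [h2, h1]
      push_cast
      linear_combination (((u i - u j) * Complex.exp (-(ϕ * Complex.I))).im : ℂ) *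
        Complex.exp (Complex.I * ϕ) * Complex.I_mul_I
    obtain ⟨β, h1, h2, h3⟩ := exists_ray hne
    have h4 := hlim β h1 h2
    rw [if_neg hij] at h4
    have h5 : Tendsto (fun _ : ℝ => K) atBot (𝓝 0) := by
      refine squeeze_zero_norm (fun x => ?_) (tendsto_norm_zero.comp h4)
      rw [Function.comp_apply, norm_mul, Complex.norm_exp]
      have h6 : 0 ≤ ((u i - u j) * Complex.exp (-(x + β * Complex.I))).re := by
        have : (u i - u j) * Complex.exp (-(x + β * Complex.I)) =
            ((Real.exp (-x) : ℝ) : ℂ) * ((u i - u j) * Complex.exp (-(β * Complex.I))) := by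
          rw [neg_add, Complex.exp_add, Complex.ofReal_exp]
          push_cast
          ring
        rw [this, Complex.re_ofReal_mul]
        exact mul_nonneg (Real.exp_pos _).le h3
      have h7 : 1 ≤ Real.exp ((u i - u j) * Complex.exp (-(x + β * Complex.I))).re :=
        Real.one_le_exp h6
      nlinarith [norm_nonneg K]
    exact tendsto_nhds_unique tendsto_const_nhds h5

end

end Pool.Agent.L0h16.Dub
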