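import Mathlib

/-!
# Dubrovin's conjecture: the monodromy data of quantum cohomology and exceptional collections

Definitions for `MP_78bf89_ag`, Q2. The cohomology algebra of a Fano manifold `X`, its quantum
products, the first structure connection at a semisimple point, the solutions `X₊` and `X₋` with
their asymptotic behaviour, the Stokes matrix, the calibrated solution `Z` and the central connection
matrix, exceptional collections in the derived category and Chern characters.
-/

set_option autoImplicit false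

open CategoryTheory Filter Topology

namespace Pool.Agent.L0h16.Dub

/-- The operator on `H` which is the multiplication by `f p` on the classes of complex degree `p`
(that is, on `H^{2p}(X)`), where `φ` is a homogeneous basis and `deg a` the complex degree of `φ a`. -/
noncomputable def gradedOp {H : Type} [AddCommGroup H] [Module ℂ H] {N : ℕ}
    (φ : Module.Basis (Fin N) ℂ H) (deg : Fin N → ℕ) (f : ℕ → ℂ) : H →ₗ[ℂ] H :=
  φ.constr ℂ fun a => f (deg a) • φ a

/-- The cohomology `H = H^*(X, ℂ)` of a smooth projective variety `X` of positive dimension with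
vanishing odd cohomology: the algebra `H` with the cup product, a homogeneous basis
`φ 0, ..., φ (N - 1)` which contains the unit, the integral over `X`, the first Chern class and the
Todd class. -/
structure Coh (H : Type) [NormedCommRing H] [NormedAlgebra ℂ H] (N : ℕ) where
  /-- the complex dimension of `X` -/
  dim : ℕ
  dim_pos : 0 < dim
  /-- the homogeneous basis -/
  φ : Module.Basis (Fin N) ℂ H
  /-- `φ a` is in `H^{2 deg a}(X)` -/
  deg : Fin N → ℕ
  one_hom : ∀ a, φ.repr 1 a ≠ 0 → deg a = 0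
  mul_hom : ∀ a b c, φ.repr (φ a * φ b) c ≠ 0 → deg c = deg a + deg b
  /-- the integral over `X` -/
  int : H →ₗ[ℂ] ℂ
  int_hom : ∀ a, int (φ a) ≠ 0 → deg a = dim
  /-- Poincaré duality -/
  nondeg : ∀ x, (∀ y, int (x * y) = 0) → x = 0
  /-- the first Chern class of `X` -/
  c₁ : H
  c₁_hom : ∀ a, φ.repr c₁ a ≠ 0 → deg a = 1
  c₁_ne : c₁ ≠ 0
  /-- the Todd class of `X` -/
  td : H
  /-- `td(X)^∨ = e^{-c₁(X)} td(X)` -/
  td_dual : gradedOp φ deg (fun p => (-1) ^ p) td = NormedSpace.exp (-c₁) * td

namespace Coh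

variable {H : Type} [NormedCommRing H] [NormedAlgebra ℂ H] {N : ℕ} (X : Coh H N)

/-- The duality `a ↦ a^∨`, the multiplication by `(-1) ^ p` on the classes of degree `p`. -/
noncomputable def dual : H →ₗ[ℂ] H := gradedOp X.φ X.deg fun p => (-1) ^ p

/-- The operator `θ`, the multiplication by `D / 2 - p` on the classes of degree `p`. -/
noncomputable def θ : H →ₗ[ℂ] H := gradedOp X.φ X.deg fun p => (X.dim : ℂ) / 2 - p

/-- The operator `z ^ θ` for `z = exp w`. -/
noncomputable def zθ (w : ℂ) : H →ₗ[ℂ] H :=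
  gradedOp X.φ X.deg fun p => Complex.exp (w * ((X.dim : ℂ) / 2 - p))

/-- The operator `z ^ (-ρ)` for `z = exp w`, where `ρ` is the cup product with `c₁(X)`. -/
noncomputable def zρ (w : ℂ) (a : H) : H := NormedSpace.exp (-(w • X.c₁)) * a

/-- The normalisation of the Chern character: multiplication by `(2 π i) ^ p` on the classes of
degree `p`. -/
noncomputable def scale : H →ₗ[ℂ] H :=
  gradedOp X.φ X.deg fun p => (2 * Real.pi * Complex.I) ^ p

/-- The Euler field `E = c₁(X) + ∑ (1 - deg φ_a) t_a φ_a` at the point `t = ∑ t_a φ_a` of `H`. -/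
noncomputable def euler (t : H) : H := X.c₁ + gradedOp X.φ X.deg (fun p => 1 - p) t

end Coh

/-- The (convergent) quantum cohomology of `X`: the domain `M` in `H` and the quantum product
`mul t a b = a • b` at the points `t` of `M`. Only the following properties of the product are used:
it is commutative and associative with the unit `1`, and compatible with the Poincaré pairing. -/
structure Quantum {H : Type} [NormedCommRing H] [NormedAlgebra ℂ H] {N : ℕ} (X : Coh H N) where
  /-- the domain of convergence -/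
  M : Set H
  /-- the quantum product at the point `t` -/
  mul : H → H →ₗ[ℂ] H →ₗ[ℂ] H
  comm : ∀ t ∈ M, ∀ a b, mul t a b = mul t b a
  assoc : ∀ t ∈ M, ∀ a b c, mul t (mul t a b) c = mul t a (mul t b c)
  one : ∀ t ∈ M, ∀ a, mul t 1 a = a
  frob : ∀ t ∈ M, ∀ a b c, X.int (mul t a b * c) = X.int (a * mul t b c)

variable {H : Type} [NormedCommRing H] [NormedAlgebra ℂ H] {N : ℕ} {X : Coh H N}

namespace Quantum

variable (Q : Quantum X)

/-- `J(t, z)`, as a function of `w = log z`, is a solution of the first structure connection at the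
point `t`. The system is `z ∂_{t_a} J = φ_a • J`, `(z ∂_z + E) J = θ J`; so at the point `t` we have
`z ∂_z J = θ J - z⁻¹ E(t) • J`, and this equation determines the solutions of the system near `t`. -/
def IsSol (t : H) (J : ℂ → H) : Prop :=
  ∀ w, HasDerivAt J (X.θ (J w) - Complex.exp (-w) • Q.mul t (X.euler t) (J w)) w

/-- The point `t` is semisimple with the pairwise distinct canonical coordinates `u j`, and the `f j`
are the normalised idempotents (the columns of the matrix `Ψ`): the `e j` are orthogonal idempotents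
with the sum `1` of the quantum product at `t`, `f j` is a multiple of `e j` of length one, and
`E(t) • e j = u j e j`. The numbering of the canonical coordinates is arbitrary. -/
structure Frame (t : H) (f : Fin N → H) (u : Fin N → ℂ) : Prop where
  idem : ∃ (e : Fin N → H) (r : Fin N → ℂ), (∀ j, f j = r j • e j) ∧ (∀ j, Q.mul t (e j) (e j) = e j) ∧
    (∀ i j, i ≠ j → Q.mul t (e i) (e j) = 0) ∧ ∑ j, e j = 1 ∧
    ∀ j, Q.mul t (X.euler t) (e j) = u j • e j
  norm : ∀ j, X.int (f j * f j) = 1
  distinct : Function.Injective u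

/-- The oriented line `ℓ` through `0` with the direction `exp (i ϕ)` is admissible: it does not
contain one of the rays `i (u_i - u_j) ℝ_{>0}`. -/
def Admissible (u : Fin N → ℂ) (ϕ : ℝ) : Prop :=
  ∀ i j, i ≠ j → ∀ s : ℝ, Complex.I * (u i - u j) ≠ s * Complex.exp (Complex.I * ϕ)

/-- The solutions `Y j`, the columns of the matrix `Y`, satisfy `Y ∼ Ψ R(t, z) exp (U / z)` for
`z → 0` in the open half plane `α < arg z < α + π`: for every ray in the half plane
`Y exp (-U / z)` tends to `Ψ`. (This determines `Y` if the boundary of the half plane is admissible,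
and the complete asymptotic expansion follows from it.) Here `z = exp w`. -/
structure IsAsymptotic (t : H) (f : Fin N → H) (u : Fin N → ℂ) (α : ℝ) (Y : Fin N → ℂ → H) :
    Prop where
  sol : ∀ j, Q.IsSol t (Y j)
  lim : ∀ j, ∀ β : ℝ, α < β → β < α + Real.pi →
    Tendsto (fun x : ℝ => Complex.exp (-(u j * Complex.exp (-(x + β * Complex.I)))) •
      Y j (x + β * Complex.I)) atBot (𝓝 (f j))

/-- The standard calibration `𝒮(t, z)` at the point `t`, a function of `z` with values in the
operators on `H`. The columns of `Z = 𝒮(t, z) z^θ z^{-ρ}` are solutions, `𝒮(t, z) → 1` for `z → ∞`,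
and `(𝒮(t, -z) a, 𝒮(t, z) b) = (a, b)`. -/
structure IsCalibration (t : H) (𝒮 : ℂ → H →ₗ[ℂ] H) : Prop where
  sol : ∀ a, Q.IsSol t fun w => 𝒮 (Complex.exp w) (X.zθ w (X.zρ w a))
  lim : ∀ a, Tendsto (fun z => 𝒮 z a) (Bornology.cobounded ℂ) (𝓝 a)
  unitary : ∀ z, z ≠ 0 → ∀ a b, X.int (𝒮 (-z) a * 𝒮 z b) = X.int (a * b)

/-- The monodromy data at the point `t`. The line `ℓ` has the direction `exp (i ϕ)`, the left half
plane bounded by `ℓ` is `ϕ < arg z < ϕ + π`, the right half plane is `ϕ - π < arg z < ϕ`. The columns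
of the matrices `X₋` and `X₊` are the solutions with the asymptotic behaviour `Ψ R exp (U / z)` in
these half planes. The Stokes matrix `S` is defined by `X₋ = X₊ S`, the columns `C j` of the central
connection matrix, vectors in `H`, by `X₋ = Z C`. -/
structure IsMonodromyData (t : H) (𝒮 : ℂ → H →ₗ[ℂ] H) (f : Fin N → H) (u : Fin N → ℂ) (ϕ : ℝ)
    (S : Matrix (Fin N) (Fin N) ℂ) (C : Fin N → H) : Prop where
  mem : t ∈ Q.M
  frame : Q.Frame t f u
  adm : Admissible u ϕ
  calibration : Q.IsCalibration t 𝒮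
  stokes : ∃ Yr Yl : Fin N → ℂ → H, Q.IsAsymptotic t f u (ϕ - Real.pi) Yr ∧
    Q.IsAsymptotic t f u ϕ Yl ∧ (∀ j w, Yl j w = ∑ i, S i j • Yr i w) ∧
    ∀ j w, Yl j w = 𝒮 (Complex.exp w) (X.zθ w (X.zρ w (C j)))

end Quantum

section Derived

universe v u

variable (𝒟 : Type u) [Category.{v} 𝒟] [Preadditive 𝒟] [Linear ℂ 𝒟] [HasShift 𝒟 ℤ]

variable {𝒟} in
/-- The Euler characteristic `χ(E, F) = ∑ (-1) ^ k dim Hom(E, F[k])`. -/
noncomputable def chi (E F : 𝒟) : ℤ :=
  ∑ᶠ k : ℤ, (k.negOnePow : ℤ) * (Module.finrank ℂ (E ⟶ F⟦k⟧) : ℤ)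

/-- The Chern character of the objects of the derived category `𝒟` of `X`. The total `Hom` spaces are
finite dimensional and the Hirzebruch-Riemann-Roch theorem holds,
`χ(E, F) = ∫ ch(E)^∨ ch(F) td(X)`. -/
structure Chern (X : Coh H N) where
  /-- the Chern character -/
  ch : 𝒟 → H
  fin : ∀ (E F : 𝒟) (k : ℤ), FiniteDimensional ℂ (E ⟶ F⟦k⟧)
  supp : ∀ E F : 𝒟, {k : ℤ | Module.finrank ℂ (E ⟶ F⟦k⟧) ≠ 0}.Finite
  hrr : ∀ E F : 𝒟, (chi E F : ℂ) = X.int (X.dual (ch E) * ch F * X.td)

variable {𝒟}

/-- `(E 0, ..., E (N - 1))` is an exceptional collection: `Hom(E_i, E_i[k])` is `ℂ` for `k = 0` and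
zero otherwise, and `Hom(E_i, E_j[k]) = 0` for `i > j` and all `k`. -/
structure IsExceptional (E : Fin N → 𝒟) : Prop where
  self : ∀ i, Module.finrank ℂ (E i ⟶ (E i)⟦(0 : ℤ)⟧) = 1
  shift : ∀ i, ∀ k : ℤ, k ≠ 0 → Subsingleton (E i ⟶ (E i)⟦k⟧)
  zero : ∀ i j, j < i → ∀ k : ℤ, Subsingleton (E i ⟶ (E j)⟦k⟧)

/-- The collection is full: it generates `𝒟` as a triangulated category. -/
def IsFull [Limits.HasZeroObject 𝒟] [∀ n : ℤ, (shiftFunctor 𝒟 n).Additive] [Pretriangulated 𝒟]
    (E : Fin N → 𝒟) : Prop :=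
  ∀ P : ObjectProperty 𝒟, P.IsTriangulated → P.IsClosedUnderIsomorphisms → (∀ i, P (E i)) →
    ∀ F, P F

end Derived

/-- Part (a) of Q2: `s_{ij} = χ(E_i, E_j)`. -/
def PartA {𝒟 : Type*} [Category 𝒟] [Preadditive 𝒟] [Linear ℂ 𝒟] [HasShift 𝒟 ℤ]
    (S : Matrix (Fin N) (Fin N) ℂ) (E : Fin N → 𝒟) : Prop :=
  ∀ i j, S i j = (chi (E i) (E j) : ℂ)

/-- Part (b) of Q2, where the vectors `v j` are the columns of `C''`: we have `C = C' C''` for a linear
operator `C'` on `H` with `C'(c₁(X) a) = c₁(X) C'(a)`. -/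
def PartB (X : Coh H N) (C : Fin N → H) (v : Fin N → H) : Prop :=
  ∃ C' : H →ₗ[ℂ] H, (∀ a, C' (X.c₁ * a) = X.c₁ * C' a) ∧ ∀ j, C j = C' (v j)

end Pool.Agent.L0h16.Dub
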