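import Pool.Agent.L0h16.Dub.Main

/-!
# Exceptional collections and the main theorem
-/

set_option autoImplicit false

open CategoryTheory Filter Topology

namespace Pool.Agent.L0h16.Dub

section exc

universe v u'

variable {𝒟 : Type u'} [Category.{v} 𝒟] [Preadditive 𝒟] [Linear ℂ 𝒟] [HasShift 𝒟 ℤ]

variable {H : Type} [NormedCommRing H] [NormedAlgebra ℂ H] {N : ℕ} {X : Coh H N}

lemma chi_self {E : Fin N → 𝒟} (hE : IsExceptional E) (i : Fin N) : chi (E i) (E i) = 1 := by
  rw [chi, finsum_eq_single _ (0 : ℤ)]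
  · rw [hE.self i]; simp
  · intro k hk
    have := hE.shift i k hk
    rw [Module.finrank_zero_of_subsingleton]; simp

lemma chi_zero {E : Fin N → 𝒟} (hE : IsExceptional E) {i j : Fin N} (hij : j < i) :
    chi (E i) (E j) = 0 := by
  rw [chi]
  have : ∀ k : ℤ, (k.negOnePow : ℤ) * (Module.finrank ℂ (E i ⟶ (E j)⟦k⟧) : ℤ) = 0 := by
    intro k
    have := hE.zero i j hij k
    rw [Module.finrank_zero_of_subsingleton]; simp
  rw [finsum_congr this, finsum_zero]

/-- The Gram matrix of the collection. -/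
noncomputable def gram (E : Fin N → 𝒟) : Matrix (Fin N) (Fin N) ℂ :=
  Matrix.of fun i j => (chi (E i) (E j) : ℂ)

lemma gram_det {E : Fin N → 𝒟} (hE : IsExceptional E) : (gram E).det = 1 := by
  rw [Matrix.det_of_isUpperTriangular]
  · refine Finset.prod_eq_one fun i _ => ?_
    rw [gram, Matrix.of_apply, chi_self hE, Int.cast_one]
  · intro i j hij
    rw [gram, Matrix.of_apply, chi_zero hE (show j < i from hij), Int.cast_zero]

/-- The Chern characters are linearly independent. -/
lemma ch_indep (c : Chern 𝒟 X) {E : Fin N → 𝒟} (hE : IsExceptional E) :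
    LinearIndependent ℂ fun j => c.ch (E j) := by
  rw [Fintype.linearIndependent_iff]
  intro g hg i
  have h2 : (gram E).mulVec g = 0 := by
    ext k
    rw [Matrix.mulVec, dotProduct, Pi.zero_apply]
    have h3 : X.int (X.dual (c.ch (E k)) * (∑ j, g j • c.ch (E j)) * X.td) = 0 := by
      rw [hg, mul_zero, zero_mul, map_zero]
    rw [Finset.mul_sum, Finset.sum_mul, map_sum] at h3
    rw [← h3]
    refine Finset.sum_congr rfl fun j _ => ?_
    rw [mul_smul_comm, smul_mul_assoc, map_smul, ← c.hrr, gram, Matrix.of_apply, smul_eq_mul,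
      mul_comm]
  have h5 : IsUnit (gram E).det := by rw [gram_det hE]; exact isUnit_one
  have h6 := congrArg (fun x => (gram E)⁻¹.mulVec x) h2
  simp only [Matrix.mulVec_mulVec, Matrix.nonsing_inv_mul _ h5, Matrix.one_mulVec,
    Matrix.mulVec_zero] at h6
  rw [h6]; rfl

/-- The action of the Serre functor. -/
lemma serre [FiniteDimensional ℂ H] (c : Chern 𝒟 X) {E : Fin N → 𝒟} (hE : IsExceptional E)
    {M : Matrix (Fin N) (Fin N) ℂ} (hM : gram E * M = (gram E).transpose) (j : Fin N) :
    (-1 : ℂ) ^ X.dim • (NormedSpace.exp ((-1 : ℂ) • X.c₁) * c.ch (E j)) =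
      ∑ i, M i j • c.ch (E i) := by
  have hcard : Fintype.card (Fin N) = Module.finrank ℂ H := by
    rw [Module.finrank_eq_card_basis X.φ]
  have hspan : ∀ x : H, ∃ g : Fin N → ℂ, x = ∑ i, g i • c.ch (E i) := by
    intro x
    have h3 : x ∈ Submodule.span ℂ (Set.range fun i => c.ch (E i)) := by
      rw [(ch_indep c hE).span_eq_top_of_card_eq_finrank' hcard]; trivial
    obtain ⟨g, hg⟩ := (Submodule.mem_span_range_iff_exists_fun ℂ).1 h3
    exact ⟨g, hg.symm⟩
  obtain ⟨g, hg⟩ := hspan ((-1 : ℂ) ^ X.dim • (NormedSpace.exp ((-1 : ℂ) • X.c₁) * c.ch (E j)))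
  rw [hg]
  -- the Gram matrix
  have h1 : (gram E).mulVec g = fun k => (gram E).transpose k j := by
    ext k
    have h2 : (gram E).mulVec g k = X.int (X.dual (c.ch (E k)) *
        ((-1 : ℂ) ^ X.dim • (NormedSpace.exp ((-1 : ℂ) • X.c₁) * c.ch (E j))) * X.td) := by
      rw [hg, Finset.mul_sum, Finset.sum_mul, map_sum, Matrix.mulVec, dotProduct]
      refine Finset.sum_congr rfl fun i _ => ?_
      rw [mul_smul_comm, smul_mul_assoc, map_smul, ← c.hrr, gram, Matrix.of_apply, smul_eq_mul,
        mul_comm]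
    rw [h2, gram, Matrix.transpose_apply, Matrix.of_apply, c.hrr, mul_smul_comm, smul_mul_assoc,
      map_smul, smul_eq_mul]
    have h3 := int_dual X (X.dual (c.ch (E j)) * c.ch (E k) * X.td)
    rw [dual_mul, dual_mul, dual_dual] at h3
    have h4 : X.dual X.td = NormedSpace.exp ((-1 : ℂ) • X.c₁) * X.td := by
      rw [neg_one_smul]; exact X.td_dual
    rw [h4] at h3
    have h5 : X.dual (c.ch (E k)) * (NormedSpace.exp ((-1 : ℂ) • X.c₁) * c.ch (E j)) * X.td =
        c.ch (E j) * X.dual (c.ch (E k)) * (NormedSpace.exp ((-1 : ℂ) • X.c₁) * X.td) := by ring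
    rw [h5, h3, ← mul_assoc, ← mul_pow]
    norm_num
  have h5 : IsUnit (gram E).det := by rw [gram_det hE]; exact isUnit_one
  have h6 : (gram E).mulVec (fun i => M i j) = fun k => (gram E).transpose k j := by
    ext k
    have := congrFun (congrFun hM k) j
    rw [Matrix.mul_apply] at this
    rw [Matrix.mulVec, dotProduct, this]
  have h7 : g = fun i => M i j := by
    have h8 := congrArg (fun x => (gram E)⁻¹.mulVec x) (h1.trans h6.symm)
    simpa only [Matrix.mulVec_mulVec, Matrix.nonsing_inv_mul _ h5, Matrix.one_mulVec] using h8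
  rw [h7]

/-- The operator `C'` defined by `C'(ch(E_j)) = C_j` satisfies `C'(c₁ a) = 2 π i c₁ C'(a)`. -/
theorem exists_op {Q : Quantum X} {t : H} {𝒮 : ℂ → H →ₗ[ℂ] H} {f : Fin N → H} {u : Fin N → ℂ}
    {ϕ : ℝ} {S : Matrix (Fin N) (Fin N) ℂ} {C : Fin N → H}
    (h : Q.IsMonodromyData t 𝒮 f u ϕ S C) (c : Chern 𝒟 X) {E : Fin N → 𝒟}
    (hE : IsExceptional E) (ha : PartA S E) :
    ∃ C' : H →ₗ[ℂ] H, Function.Bijective C' ∧ (∀ j, C j = C' (c.ch (E j))) ∧
      ∀ a, C' (X.c₁ * a) = (2 * Real.pi * Complex.I) • (X.c₁ * C' a) := by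
  have : FiniteDimensional ℂ H := X.φ.finiteDimensional_of_finite
  have hcard : Fintype.card (Fin N) = Module.finrank ℂ H := by
    rw [Module.finrank_eq_card_basis X.φ]
  have hSG : S = gram E := by
    ext i j
    rw [ha i j, gram, Matrix.of_apply]
  subst hSG
  have hu : IsUnit (gram E).det := by rw [gram_det hE]; exact isUnit_one
  set M := (gram E)⁻¹ * (gram E).transpose with hMdef
  have hM : gram E * M = (gram E).transpose := by
    rw [hMdef, ← Matrix.mul_assoc, Matrix.mul_nonsing_inv _ hu, Matrix.one_mul]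
  obtain ⟨hCi, hmon⟩ := monodromy h hu hM
  have hei := ch_indep c hE
  set b := basisOfLinearIndependentOfCardEqFinrank' _ hei hcard with hb
  have hbj : ∀ j, b j = c.ch (E j) := fun j => by
    rw [hb, coe_basisOfLinearIndependentOfCardEqFinrank']
  set C' : H →ₗ[ℂ] H := b.constr ℂ C with hC'
  have hC'j : ∀ j, C' (c.ch (E j)) = C j := fun j => by
    rw [← hbj, hC', Module.Basis.constr_basis]
  have hinj : Function.Injective C' := by
    rw [← LinearMap.ker_eq_bot, LinearMap.ker_eq_bot']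
    intro x hx
    rw [← b.sum_repr x, map_sum] at hx
    simp only [map_smul, hbj, hC'j] at hx
    rw [← b.sum_repr x]
    refine Finset.sum_eq_zero fun i _ => ?_
    rw [Fintype.linearIndependent_iff.1 hCi _ hx i, zero_smul]
  refine ⟨C', ⟨hinj, LinearMap.injective_iff_surjective.1 hinj⟩, fun j => (hC'j j).symm,
    fun a => intertwine X (s := 2 * Real.pi * Complex.I) (fun a => ?_) a⟩
  -- the relation on the basis
  have hbas : ∀ j, C' (NormedSpace.exp ((-1 : ℂ) • X.c₁) * c.ch (E j)) =
      NormedSpace.exp ((-(2 * Real.pi * Complex.I)) • X.c₁) * C' (c.ch (E j)) := by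
    intro j
    have h1 := congrArg C' (serre c hE hM j)
    rw [map_smul, map_sum] at h1
    simp only [map_smul, hC'j] at h1
    rw [← hmon j, mon] at h1
    have h2 : ((-1 : ℂ) ^ X.dim) ≠ 0 := pow_ne_zero _ (by norm_num)
    have h3 := smul_right_injective H h2 h1
    rw [h3, hC'j]
  conv_lhs => rw [← b.sum_repr a, Finset.mul_sum, map_sum]
  conv_rhs => rw [← b.sum_repr a, map_sum, Finset.mul_sum]
  refine Finset.sum_congr rfl fun j _ => ?_
  rw [mul_smul_comm, map_smul, map_smul, mul_smul_comm, hbj, hbas]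

/-- The consequences for part (b): it is false for the vectors `ch(E_j)` and true for the vectors
`(2 π i) ^ p ch_p(E_j)`. -/
theorem partB {Q : Quantum X} {t : H} {𝒮 : ℂ → H →ₗ[ℂ] H} {f : Fin N → H} {u : Fin N → ℂ}
    {ϕ : ℝ} {S : Matrix (Fin N) (Fin N) ℂ} {C : Fin N → H}
    (h : Q.IsMonodromyData t 𝒮 f u ϕ S C) (c : Chern 𝒟 X) {E : Fin N → 𝒟}
    (hE : IsExceptional E) (ha : PartA S E) :
    ¬ PartB X C (fun j => c.ch (E j)) ∧ PartB X C (fun j => X.scale (c.ch (E j))) := by
  obtain ⟨C', hbij, hC, hcomm⟩ := exists_op h c hE ha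
  have : FiniteDimensional ℂ H := X.φ.finiteDimensional_of_finite
  have hcard : Fintype.card (Fin N) = Module.finrank ℂ H := by
    rw [Module.finrank_eq_card_basis X.φ]
  constructor
  · rintro ⟨C₁, h1, h2⟩
    have hei := ch_indep c hE
    have heq : C₁ = C' := by
      refine (basisOfLinearIndependentOfCardEqFinrank' _ hei hcard).ext fun j => ?_
      rw [coe_basisOfLinearIndependentOfCardEqFinrank', ← h2 j, ← hC j]
    rw [heq] at h1
    obtain ⟨a, ha1⟩ := hbij.2 1
    have h3 := (h1 a).symm.trans (hcomm a)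
    rw [ha1, mul_one] at h3
    have h4 : (1 - 2 * Real.pi * Complex.I : ℂ) • X.c₁ = 0 := by
      rw [sub_smul, one_smul, sub_eq_zero]; exact h3
    rw [smul_eq_zero] at h4
    rcases h4 with h4 | h4
    · have h5 := congrArg Complex.re h4
      simp at h5
    · exact X.c₁_ne h4
  · refine ⟨C' ∘ₗ unscale X, fun a => ?_, fun j => ?_⟩
    · rw [LinearMap.comp_apply, unscale_mul, unscale_c₁, smul_mul_assoc, map_smul, hcomm,
        smul_smul, inv_mul_cancel₀ two_pi_I_ne, one_smul, LinearMap.comp_apply]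
    · rw [LinearMap.comp_apply, unscale_scale, hC]

end exc

end Pool.Agent.L0h16.Dub
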