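import Pool.Agent.L0h16.Dub.Exc

/-!
# The Stokes matrix in terms of the central connection matrix
-/

set_option autoImplicit false

open CategoryTheory Filter Topology

namespace Pool.Agent.L0h16.Dub

section iso

universe v u'

variable {𝒟 : Type u'} [Category.{v} 𝒟] [Preadditive 𝒟] [Linear ℂ 𝒟] [HasShift 𝒟 ℤ]

variable {H : Type} [NormedCommRing H] [NormedAlgebra ℂ H] {N : ℕ} {X : Coh H N} {Q : Quantum X}

variable {t : H} {f : Fin N → H} {u : Fin N → ℂ} {ϕ : ℝ}

lemma zθ_adj (w : ℂ) (x y : H) : X.int (X.zθ w x * y) = X.int (x * X.zθ (-w) y) := by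
  refine int_gradedOp X (fun p q hpq => ?_) x y
  congr 1
  have : (X.dim : ℂ) = p + q := by rw [← hpq]; push_cast; ring
  rw [this]; ring

lemma zθ_comp (w w' : ℂ) (x : H) : X.zθ w (X.zθ w' x) = X.zθ (w + w') x := by
  rw [Coh.zθ, Coh.zθ, gradedOp_comp, Coh.zθ]
  congr 2
  funext p
  rw [← Complex.exp_add]
  congr 1
  ring

lemma zθ_pi (x : H) : X.zθ (Real.pi * Complex.I) x = (Complex.I ^ X.dim) • X.dual x := by
  rw [Coh.zθ, Coh.dual, ← gradedOp_smul]
  congr 2
  funext p
  have h1 : (Real.pi * Complex.I) * ((X.dim : ℂ) / 2 - p) =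
      (X.dim : ℂ) * (Real.pi / 2 * Complex.I) + (p : ℂ) * (-(Real.pi * Complex.I)) := by ring
  rw [h1, Complex.exp_add, Complex.exp_nat_mul, Complex.exp_nat_mul, Complex.exp_neg,
    Complex.exp_pi_mul_I, Complex.exp_pi_div_two_mul_I]
  norm_num

/-- `S_{ij} = i ^ D ∫ C_i^∨ C_j exp (π i c₁)`. -/
lemma stokes_formula {𝒮 : ℂ → H →ₗ[ℂ] H} {S : Matrix (Fin N) (Fin N) ℂ}
    {C : Fin N → H} (h : Q.IsMonodromyData t 𝒮 f u ϕ S C) (i j : Fin N) :
    S i j = Complex.I ^ X.dim * X.int (X.dual (C i) * C j *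
      NormedSpace.exp ((Real.pi * Complex.I) • X.c₁)) := by
  have : FiniteDimensional ℂ H := X.φ.finiteDimensional_of_finite
  obtain ⟨Yr, Yl, hr, hl, hSt, hC⟩ := h.stokes
  have key := pairing_left h.mem h.frame h.adm hr hl hSt j i 0
  rw [hC, hC, zero_sub, Complex.exp_neg, Complex.exp_pi_mul_I, Complex.exp_zero, inv_neg_one,
    h.calibration.unitary 1 one_ne_zero, zθ_adj, neg_neg, zθ_comp, add_zero, zθ_pi,
    Coh.zρ, Coh.zρ, zero_smul, neg_zero, NormedSpace.exp_zero, one_mul, mul_smul_comm, map_smul,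
    smul_eq_mul] at key
  rw [← key, neg_smul, neg_neg]
  congr 2
  ring

lemma int_scale (x : H) : X.int (X.scale x) = (2 * Real.pi * Complex.I) ^ X.dim * X.int x := by
  have h : X.int ∘ₗ X.scale = ((2 * Real.pi * Complex.I : ℂ) ^ X.dim) • X.int := by
    refine X.φ.ext fun a => ?_
    rw [LinearMap.comp_apply, Coh.scale, gradedOp_basis, map_smul, LinearMap.smul_apply]
    by_cases h : X.int (X.φ a) = 0
    · rw [h, smul_zero, smul_zero]
    · rw [X.int_hom a h]
  exact LinearMap.congr_fun h x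

lemma scale_dual (x : H) : X.scale (X.dual x) = X.dual (X.scale x) := by
  rw [Coh.scale, Coh.dual, gradedOp_comp, gradedOp_comp]
  congr 2
  funext p
  ring

lemma scale_unscale (x : H) : X.scale (unscale X x) = x := by
  rw [unscale, Coh.scale, gradedOp_comp]
  have : (fun p : ℕ => (2 * Real.pi * Complex.I : ℂ) ^ p * ((2 * Real.pi * Complex.I) ^ p)⁻¹) =
      fun _ => 1 := by
    funext p
    exact mul_inv_cancel₀ (pow_ne_zero _ two_pi_I_ne)
  rw [this, gradedOp_one]

/-- The Euler form in terms of the normalised Chern characters. -/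
lemma chi_scale (c : Chern 𝒟 X) (E F : 𝒟) :
    (2 * Real.pi * Complex.I) ^ X.dim * (chi E F : ℂ) =
      X.int (X.dual (X.scale (c.ch E)) * X.scale (c.ch F) * X.scale X.td) := by
  rw [c.hrr, ← int_scale, scale_mul, scale_mul, scale_dual]

/-- `C'` is an isometry from the Euler form to the form given by the monodromy:
`(2 π) ^ D (-1) ^ D ∫ C'(a)^∨ C'(b) exp (π i c₁) = ∫ a^∨ b Td` where `Td` is the normalised Todd
class, with the components `(2 π i) ^ p td_p`. -/
def IsIsometry (X : Coh H N) (C' : H →ₗ[ℂ] H) : Prop :=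
  ∀ a b, (-1) ^ X.dim * (2 * Real.pi) ^ X.dim * X.int (X.dual (C' a) * C' b *
      NormedSpace.exp ((Real.pi * Complex.I) • X.c₁)) = X.int (X.dual a * b * X.scale X.td)

lemma const_eq (D : ℕ) : (2 * Real.pi * Complex.I : ℂ) ^ D * Complex.I ^ D =
    (-1) ^ D * (2 * Real.pi) ^ D := by
  rw [← mul_pow, ← mul_pow]
  congr 1
  linear_combination (2 * Real.pi : ℂ) * Complex.I_mul_I

/-- **Part (a) is equivalent to the existence of an isometry `C'`.** -/
theorem partA_iff {𝒮 : ℂ → H →ₗ[ℂ] H} {S : Matrix (Fin N) (Fin N) ℂ} {C : Fin N → H}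
    (h : Q.IsMonodromyData t 𝒮 f u ϕ S C) (c : Chern 𝒟 X) {E : Fin N → 𝒟}
    (hE : IsExceptional E) :
    PartA S E ↔ ∃ C' : H →ₗ[ℂ] H, (∀ a, C' (X.c₁ * a) = X.c₁ * C' a) ∧
      (∀ j, C j = C' (X.scale (c.ch (E j)))) ∧ IsIsometry X C' := by
  have : FiniteDimensional ℂ H := X.φ.finiteDimensional_of_finite
  have hcard : Fintype.card (Fin N) = Module.finrank ℂ H := by
    rw [Module.finrank_eq_card_basis X.φ]
  have hne : ((2 * Real.pi * Complex.I : ℂ)) ^ X.dim ≠ 0 := pow_ne_zero _ two_pi_I_ne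
  constructor
  · intro ha
    obtain ⟨C', hcomm, hC⟩ := (partB h c hE ha).2
    refine ⟨C', hcomm, hC, ?_⟩
    set b := basisOfLinearIndependentOfCardEqFinrank' _ (ch_indep c hE) hcard with hb
    have hbj : ∀ j, b j = c.ch (E j) := fun j => by
      rw [hb, coe_basisOfLinearIndependentOfCardEqFinrank']
    have key : ∀ i j, (-1) ^ X.dim * (2 * Real.pi) ^ X.dim * X.int (X.dual (C' (X.scale (b i))) *
        C' (X.scale (b j)) * NormedSpace.exp ((Real.pi * Complex.I) • X.c₁)) =
        X.int (X.dual (X.scale (b i)) * X.scale (b j) * X.scale X.td) := by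
      intro i j
      rw [hbj, hbj, ← hC, ← hC, ← chi_scale, ← ha i j, stokes_formula h, ← const_eq, mul_assoc]
    have key2 : ∀ x y : H, (-1) ^ X.dim * (2 * Real.pi) ^ X.dim * X.int (X.dual (C' (X.scale x)) *
        C' (X.scale y) * NormedSpace.exp ((Real.pi * Complex.I) • X.c₁)) =
        X.int (X.dual (X.scale x) * X.scale y * X.scale X.td) := by
      intro x y
      rw [← b.sum_repr x, ← b.sum_repr y]
      simp only [map_sum, map_smul, Finset.sum_mul, Finset.mul_sum, smul_mul_assoc,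
        mul_smul_comm, smul_eq_mul]
      refine Finset.sum_congr rfl fun i _ => Finset.sum_congr rfl fun j _ => ?_
      have := key j i
      linear_combination ((b.repr y) i * (b.repr x) j) * this
    intro a b'
    have := key2 (unscale X a) (unscale X b')
    rwa [scale_unscale, scale_unscale] at this
  · rintro ⟨C', -, hC, hiso⟩ i j
    have h1 := hiso (X.scale (c.ch (E i))) (X.scale (c.ch (E j)))
    rw [← hC, ← hC, ← chi_scale, ← const_eq, mul_assoc, ← stokes_formula h] at h1
    exact mul_left_cancel₀ hne h1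

/-- **The minimal case.** If `H` is generated by `c₁` then (a) holds if and only if the columns of
the central connection matrix are `κ Ch(E_j)` for a class `κ` with
`κ κ^∨ = (-1) ^ D (2 π) ^ (-D) exp (-π i c₁) Td`. -/
theorem partA_iff_class {𝒮 : ℂ → H →ₗ[ℂ] H} {S : Matrix (Fin N) (Fin N) ℂ} {C : Fin N → H}
    (h : Q.IsMonodromyData t 𝒮 f u ϕ S C) (c : Chern 𝒟 X) {E : Fin N → 𝒟}
    (hE : IsExceptional E) (hgen : Algebra.adjoin ℂ {X.c₁} = ⊤) :
    PartA S E ↔ ∃ κ : H, (∀ j, C j = κ * X.scale (c.ch (E j))) ∧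
      (-1 : ℂ) ^ X.dim • ((2 * Real.pi : ℂ) ^ X.dim • (κ * X.dual κ)) =
        NormedSpace.exp (-((Real.pi * Complex.I) • X.c₁)) * X.scale X.td := by
  have : FiniteDimensional ℂ H := X.φ.finiteDimensional_of_finite
  have : CompleteSpace H := FiniteDimensional.complete ℂ H
  let _ : NormedAlgebra ℚ H := NormedAlgebra.restrictScalars ℚ ℂ H
  have hexp : NormedSpace.exp ((Real.pi * Complex.I) • X.c₁) *
      NormedSpace.exp (-((Real.pi * Complex.I) • X.c₁)) = 1 := by
    rw [← NormedSpace.exp_add, add_neg_cancel, NormedSpace.exp_zero]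
  rw [partA_iff h c hE]
  constructor
  · rintro ⟨C', hcomm, hC, hiso⟩
    have hmul : ∀ a, C' a = C' 1 * a := by
      intro a
      have ha : a ∈ Algebra.adjoin ℂ {X.c₁} := by rw [hgen]; trivial
      rw [Algebra.adjoin_singleton_eq_range_aeval] at ha
      obtain ⟨p, rfl⟩ := ha
      have : ∀ p : Polynomial ℂ, C' (Polynomial.aeval X.c₁ p) = C' 1 * Polynomial.aeval X.c₁ p := by
        intro p
        induction p using Polynomial.induction_on' with
        | add p q hp hq => rw [map_add, map_add, hp, hq, mul_add]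
        | monomial n r =>
          rw [Polynomial.aeval_monomial]
          induction n with
          | zero => rw [pow_zero, mul_one, Algebra.algebraMap_eq_smul_one, map_smul,
              mul_smul_comm, mul_one]
          | succ n ih =>
            have e1 : (algebraMap ℂ H) r * X.c₁ ^ (n + 1) = X.c₁ * ((algebraMap ℂ H) r * X.c₁ ^ n) := by
              ring
            rw [e1, hcomm, ih]
            ring
      exact this p
    refine ⟨C' 1, fun j => by rw [hC, hmul], ?_⟩
    rw [← sub_eq_zero]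
    refine X.nondeg _ fun y => ?_
    have h1 := hiso 1 (y * NormedSpace.exp (-((Real.pi * Complex.I) • X.c₁)))
    have hd1 : X.dual (1 : H) = 1 := by
      rw [Coh.dual, gradedOp_of_deg X _ X.one_hom, pow_zero, one_smul]
    rw [hmul (y * _), hd1, one_mul] at h1
    have e1 : X.dual (C' 1) * (C' 1 * (y * NormedSpace.exp (-((Real.pi * Complex.I) • X.c₁)))) *
        NormedSpace.exp ((Real.pi * Complex.I) • X.c₁) = C' 1 * X.dual (C' 1) * y := by
      linear_combination (C' 1 * X.dual (C' 1) * y) * hexp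
    rw [e1] at h1
    rw [sub_mul, map_sub, smul_mul_assoc, smul_mul_assoc, map_smul, map_smul, smul_eq_mul,
      smul_eq_mul, ← mul_assoc, h1, sub_eq_zero]
    congr 1
    ring
  · rintro ⟨κ, hC, hκ⟩
    refine ⟨LinearMap.mulLeft ℂ κ, fun a => ?_, fun j => ?_, fun a b => ?_⟩
    · rw [LinearMap.mulLeft_apply, LinearMap.mulLeft_apply]; ring
    · rw [LinearMap.mulLeft_apply, hC]
    · rw [LinearMap.mulLeft_apply, LinearMap.mulLeft_apply, dual_mul]
      have e1 : X.dual κ * X.dual a * (κ * b) * NormedSpace.exp ((Real.pi * Complex.I) • X.c₁) =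
          (κ * X.dual κ) * (X.dual a * b * NormedSpace.exp ((Real.pi * Complex.I) • X.c₁)) := by
        ring
      have e2 := congrArg (fun x => X.int (x * (X.dual a * b *
        NormedSpace.exp ((Real.pi * Complex.I) • X.c₁)))) hκ
      simp only [smul_mul_assoc, map_smul, smul_eq_mul] at e2
      rw [e1, mul_assoc, e2]
      congr 1
      linear_combination (X.dual a * b * X.scale X.td) * hexp

end iso

end Pool.Agent.L0h16.Dub
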