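import Pool.Agent.L0h16.Dub.Ana

/-!
# Part (a) of Q2 determines the commutation of `C'` with `c₁`
-/

set_option autoImplicit false

open CategoryTheory Filter Topology

namespace Pool.Agent.L0h16.Dub

section mono

variable {H : Type} [NormedCommRing H] [NormedAlgebra ℂ H] {N : ℕ} {X : Coh H N} {Q : Quantum X}

variable {t : H} {f : Fin N → H} {u : Fin N → ℂ} {ϕ : ℝ}

/-- The pairing of the solutions `X₋` at `-z` and `z`. -/
lemma pairing_left [FiniteDimensional ℂ H] (ht : t ∈ Q.M) (hf : Q.Frame t f u)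
    (hϕ : Quantum.Admissible u ϕ) {Yr Yl : Fin N → ℂ → H}
    (hr : Q.IsAsymptotic t f u (ϕ - Real.pi) Yr) (hl : Q.IsAsymptotic t f u ϕ Yl)
    {S : Matrix (Fin N) (Fin N) ℂ} (hS : ∀ j w, Yl j w = ∑ i, S i j • Yr i w) (k j : Fin N) (w : ℂ) :
    X.int (Yl k (w - Real.pi * Complex.I) * Yl j w) = S j k := by
  rw [hS k (w - Real.pi * Complex.I), Finset.sum_mul, map_sum]
  simp only [smul_mul_assoc, map_smul, pairing_eq ht hf hϕ hr hl, smul_eq_mul, mul_ite, mul_one,
    mul_zero, Finset.sum_ite_eq', Finset.mem_univ, if_true]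

lemma zθ_add (w : ℂ) (a : H) : X.zθ (w + 2 * Real.pi * Complex.I) a =
    X.zθ w (((-1 : ℂ) ^ X.dim) • a) := by
  rw [map_smul]
  have h : (fun p : ℕ => Complex.exp ((w + 2 * Real.pi * Complex.I) * ((X.dim : ℂ) / 2 - p))) =
      fun p : ℕ => (-1 : ℂ) ^ X.dim * Complex.exp (w * ((X.dim : ℂ) / 2 - p)) := by
    funext p
    have h1 : (w + 2 * Real.pi * Complex.I) * ((X.dim : ℂ) / 2 - p) =
        (X.dim : ℂ) * (Real.pi * Complex.I) + ((-p : ℤ) : ℂ) * (2 * Real.pi * Complex.I) +
          w * ((X.dim : ℂ) / 2 - p) := by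
      push_cast; ring
    rw [h1, Complex.exp_add, Complex.exp_add, Complex.exp_int_mul_two_pi_mul_I,
      Complex.exp_nat_mul, Complex.exp_pi_mul_I, mul_one]
  rw [Coh.zθ, h, gradedOp_smul]
  rfl

lemma zρ_add [CompleteSpace H] (w : ℂ) (a : H) : X.zρ (w + 2 * Real.pi * Complex.I) a =
    X.zρ w (NormedSpace.exp ((-(2 * Real.pi * Complex.I)) • X.c₁) * a) := by
  let _ : NormedAlgebra ℚ H := NormedAlgebra.restrictScalars ℚ ℂ H
  rw [Coh.zρ, Coh.zρ, ← mul_assoc, ← NormedSpace.exp_add]
  congr 2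
  rw [add_smul, neg_add, neg_smul]

/-- The monodromy operator `(-1) ^ D exp (-2 π i c₁)` of `Z`. -/
noncomputable def mon (X : Coh H N) (a : H) : H :=
  (-1 : ℂ) ^ X.dim • (NormedSpace.exp ((-(2 * Real.pi * Complex.I)) • X.c₁) * a)

lemma Z_add [CompleteSpace H] (𝒮 : ℂ → H →ₗ[ℂ] H) (w : ℂ) (a : H) :
    𝒮 (Complex.exp (w + 2 * Real.pi * Complex.I)) (X.zθ (w + 2 * Real.pi * Complex.I)
      (X.zρ (w + 2 * Real.pi * Complex.I) a)) =
    𝒮 (Complex.exp w) (X.zθ w (X.zρ w (mon X a))) := by
  rw [Complex.exp_periodic, zθ_add, zρ_add, mon]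
  congr 2
  rw [Coh.zρ, Coh.zρ, mul_smul_comm]

/-- The relation between the monodromy of `Z` and the Stokes matrix, for an invertible Stokes
matrix. -/
lemma monodromy [FiniteDimensional ℂ H] {𝒮 : ℂ → H →ₗ[ℂ] H} {S M : Matrix (Fin N) (Fin N) ℂ}
    {C : Fin N → H} (h : Q.IsMonodromyData t 𝒮 f u ϕ S C) (hS : IsUnit S.det)
    (hM : S * M = S.transpose) :
    LinearIndependent ℂ C ∧ ∀ j, mon X (C j) = ∑ i, M i j • C i := by
  have : CompleteSpace H := FiniteDimensional.complete ℂ H
  obtain ⟨Yr, Yl, hr, hl, hSt, hC⟩ := h.stokes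
  have key := pairing_left h.mem h.frame h.adm hr hl hSt
  -- the solutions are linearly independent at every point
  have hind : ∀ w, LinearIndependent ℂ fun j => Yl j w := by
    intro w
    rw [Fintype.linearIndependent_iff]
    intro g hg i
    have h1 : S.mulVec (fun _ => 0) = 0 := Matrix.mulVec_zero _
    have h2 : S.transpose.mulVec g = 0 := by
      ext k
      rw [Matrix.mulVec, dotProduct, Pi.zero_apply]
      have h3 : X.int (Yl k (w - Real.pi * Complex.I) * ∑ j, g j • Yl j w) = 0 := by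
        rw [hg, mul_zero, map_zero]
      rw [Finset.mul_sum, map_sum] at h3
      rw [← h3]
      refine Finset.sum_congr rfl fun j _ => ?_
      rw [mul_smul_comm, map_smul, key, Matrix.transpose_apply, smul_eq_mul, mul_comm]
    have h4 : g = 0 := by
      have h5 : IsUnit S.transpose.det := by rw [Matrix.det_transpose]; exact hS
      have h6 := congrArg (fun x => S.transpose⁻¹.mulVec x) h2
      simpa [Matrix.mulVec_mulVec, Matrix.nonsing_inv_mul _ h5] using h6
    rw [h4]; rfl
  have hZ : ∀ (w : ℂ) (g : Fin N → ℂ),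
      𝒮 (Complex.exp w) (X.zθ w (X.zρ w (∑ j, g j • C j))) = ∑ j, g j • Yl j w := by
    intro w g
    rw [Coh.zρ, Finset.mul_sum, map_sum, map_sum]
    refine Finset.sum_congr rfl fun j _ => ?_
    rw [hC, mul_smul_comm, map_smul, map_smul, Coh.zρ]
  have hCind : LinearIndependent ℂ C := by
    rw [Fintype.linearIndependent_iff]
    intro g hg i
    have h1 := hZ 0 g
    rw [hg, Coh.zρ, mul_zero, map_zero, map_zero] at h1
    exact Fintype.linearIndependent_iff.1 (hind 0) g h1.symm i
  refine ⟨hCind, fun j => ?_⟩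
  have hcard : Fintype.card (Fin N) = Module.finrank ℂ H := by
    rw [Module.finrank_eq_card_basis X.φ]
  -- the solution continued along the circle
  have h1 : ∀ w, Yl j (w + 2 * Real.pi * Complex.I) = ∑ i, M i j • Yl i w := by
    intro w
    rw [← sub_eq_zero]
    refine X.nondeg _ fun y => ?_
    have hspan : y ∈ Submodule.span ℂ (Set.range fun k => Yl k (w + Real.pi * Complex.I)) := by
      have := (hind (w + Real.pi * Complex.I)).span_eq_top_of_card_eq_finrank' hcard
      rw [this]; trivial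
    induction hspan using Submodule.span_induction with
    | mem y hy =>
      obtain ⟨k, rfl⟩ := hy
      have e1 := key k j (w + 2 * Real.pi * Complex.I)
      have e2 : w + 2 * Real.pi * Complex.I - Real.pi * Complex.I = w + Real.pi * Complex.I := by
        ring
      rw [e2] at e1
      have e3 : ∀ i, X.int (Yl i w * Yl k (w + Real.pi * Complex.I)) = S k i := by
        intro i
        have := key i k (w + Real.pi * Complex.I)
        rwa [add_sub_cancel_right] at this
      rw [sub_mul, map_sub, mul_comm, e1, Finset.sum_mul, map_sum]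
      simp only [smul_mul_assoc, map_smul, e3, smul_eq_mul]
      have e4 := congrFun (congrFun hM k) j
      rw [Matrix.mul_apply, Matrix.transpose_apply] at e4
      rw [← e4, sub_eq_zero]
      exact Finset.sum_congr rfl fun i _ => mul_comm _ _
    | zero => rw [mul_zero, map_zero]
    | add x y _ _ hx hy => rw [mul_add, map_add, hx, hy, add_zero]
    | smul c x _ hx => rw [mul_smul_comm, map_smul, hx, smul_zero]
  -- injectivity of `Z`
  have h2 := h1 0
  rw [hC j, Z_add, ← hZ 0 (fun i => M i j)] at h2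
  have hCb := basisOfLinearIndependentOfCardEqFinrank' C hCind hcard
  have hspanC : ∀ x : H, ∃ g : Fin N → ℂ, x = ∑ i, g i • C i := by
    intro x
    have h3 : x ∈ Submodule.span ℂ (Set.range C) := by
      rw [hCind.span_eq_top_of_card_eq_finrank' hcard]; trivial
    obtain ⟨g, hg⟩ := (Submodule.mem_span_range_iff_exists_fun ℂ).1 h3
    exact ⟨g, hg.symm⟩
  obtain ⟨g, hg⟩ := hspanC (mon X (C j))
  rw [hg] at h2 ⊢
  rw [hZ, hZ, ← sub_eq_zero, ← Finset.sum_sub_distrib] at h2
  simp only [← sub_smul] at h2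
  have h4 := Fintype.linearIndependent_iff.1 (hind 0) _ h2
  exact Finset.sum_congr rfl fun i _ => by rw [sub_eq_zero.1 (h4 i)]

end mono

end Pool.Agent.L0h16.Dub
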